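import Mathlib
import Pool.Agent.H9.LineSearchDefs
import Pool.Agent.H9.LineSearchProof

/-! MP_61cfb3_pr, Q1: for every detection probability `p ∈ (0,1)` the geometric trajectory is not
a minimax trajectory: some trajectory has guaranteed cost strictly below `p/(2-p) + 8/p`. -/

namespace Pool.Agent.Results.MP_61cfb3_pr.Disproof

open LineSearch

theorem result : ∀ p : ℝ, 0 < p → p < 1 →
    ∃ S : ℝ → ℝ, IsTrajectory S ∧
      guaranteedCost p S < ENNReal.ofReal (p / (2 - p) + 8 / p) :=
  fun p hp0 hp1 => main p hp0 hp1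

end Pool.Agent.Results.MP_61cfb3_pr.Disproof
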